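import Mathlib

set_option linter.unusedSectionVars false

namespace Pool.Agent.H.D2
open Finset

variable {V : Type*} [DecidableEq V]

/-- an intersecting family of triples with no fractional cover of weight two of three simple kinds -/
structure Fam (F : Finset V → Prop) : Prop where
  h3 : ∀ X, F X → X.card = 3
  hI : ∀ X Y, F X → F Y → ∃ p, p ∈ X ∧ p ∈ Y
  H1 : ∀ a b, ∃ X, F X ∧ a ∉ X ∧ b ∉ X
  H2 : ∀ a b c d, a ≠ b → a ≠ c → a ≠ d → b ≠ c → b ≠ d → c ≠ d → ∃ X, F X ∧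
    ¬ (a ∈ X ∧ b ∈ X) ∧ ¬ (a ∈ X ∧ c ∈ X) ∧ ¬ (a ∈ X ∧ d ∈ X) ∧ ¬ (b ∈ X ∧ c ∈ X) ∧
    ¬ (b ∈ X ∧ d ∈ X) ∧ ¬ (c ∈ X ∧ d ∈ X)
  H3 : ∀ a b c d e f, ∃ X, F X ∧ ∃ z ∈ X, z ≠ a ∧ z ≠ b ∧ z ≠ c ∧ z ≠ d ∧ z ≠ e ∧ z ≠ f

variable {F : Finset V → Prop}

theorem Fam.meet (h : Fam F) {p q r : V} (h1 : F {p, q, r}) {X : Finset V} (hX : F X) :
    p ∈ X ∨ q ∈ X ∨ r ∈ X := by
  obtain ⟨z, hz, hz'⟩ := h.hI _ _ h1 hX
  simp only [mem_insert, mem_singleton] at hz
  rcases hz with rfl | rfl | rfl <;> simp [hz']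

theorem Fam.four (h : Fam F) {X : Finset V} (hX : F X) (p q r s : V) (hp : p ∈ X) (hq : q ∈ X)
    (hr : r ∈ X) (hs : s ∈ X) : p = q ∨ p = r ∨ p = s ∨ q = r ∨ q = s ∨ r = s := by
  obtain ⟨x, y, z, -, -, -, rfl⟩ := card_eq_three.1 (h.h3 X hX)
  simp only [mem_insert, mem_singleton] at hp hq hr hs
  grind

theorem Fam.eq3 (h : Fam F) {X : Finset V} (hX : F X) {p q r : V} (hp : p ∈ X) (hq : q ∈ X)
    (hr : r ∈ X) (h1 : p ≠ q) (h2 : p ≠ r) (h3 : q ≠ r) : X = {p, q, r} := by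
  symm
  apply eq_of_subset_of_card_le
  · intro z hz
    simp only [mem_insert, mem_singleton] at hz
    rcases hz with rfl | rfl | rfl <;> assumption
  · rw [h.h3 X hX, card_eq_three.2 ⟨p, q, r, h1, h2, h3, rfl⟩]

theorem Fam.mem3 (h : Fam F) {X : Finset V} (hX : F X) {p q r : V} (hp : p ∈ X) (hq : q ∈ X)
    (hr : r ∈ X) (h1 : p ≠ q) (h2 : p ≠ r) (h3 : q ≠ r) : F {p, q, r} :=
  h.eq3 hX hp hq hr h1 h2 h3 ▸ hX

theorem Fam.third (h : Fam F) {X : Finset V} (hX : F X) {p q : V} (hp : p ∈ X) (hq : q ∈ X)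
    (h1 : p ≠ q) : ∃ r, r ∈ X ∧ r ≠ p ∧ r ≠ q := by
  obtain ⟨x, y, z, h1, h2, h3, rfl⟩ := card_eq_three.1 (h.h3 X hX)
  simp only [mem_insert, mem_singleton] at hp hq ⊢
  by_cases hx : x ≠ p ∧ x ≠ q
  · exact ⟨x, by simp, hx⟩
  by_cases hy : y ≠ p ∧ y ≠ q
  · exact ⟨y, by simp, hy⟩
  exact ⟨z, by simp, by grind⟩

def D6 (a b c d e x : V) : Prop :=
  a ≠ b ∧ a ≠ c ∧ a ≠ d ∧ a ≠ e ∧ a ≠ x ∧ b ≠ c ∧ b ≠ d ∧ b ≠ e ∧ b ≠ x ∧ c ≠ d ∧ c ≠ e ∧
    c ≠ x ∧ d ≠ e ∧ d ≠ x ∧ e ≠ x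

theorem Fam.caseB' (h : Fam F) {a b c d e x z : V} (hd : D6 a b c d e x)
    (hz : z ≠ b ∧ z ≠ d ∧ z ≠ e ∧ z ≠ x)
    (hS : F {a, b, c}) (hU : F {c, d, e}) (hU' : F {c, d, x}) (hY : F {a, e, x})
    (hZ : F {a, c, z}) : False := by
  obtain ⟨X, hX, h1, h2⟩ := h.H1 a c
  have m1 := h.meet hS hX
  have m2 := h.meet hU hX
  have m3 := h.meet hU' hX
  have m4 := h.meet hY hX
  have m5 := h.meet hZ hX
  have f1 := h.four hX b z e x
  have f2 := h.four hX b z d e
  have f3 := h.four hX b z d x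
  unfold D6 at hd
  grind

theorem Fam.caseB (h : Fam F) {a b c d e x : V} (hd : D6 a b c d e x)
    (hS : F {a, b, c}) (hT : F {a, b, d}) (hU : F {c, d, e}) (hU' : F {c, d, x})
    (hY : F {a, e, x}) : False := by
  obtain ⟨Z, hZ, z, hz, hz'⟩ := h.H3 a b c d e x
  have m1 := h.meet hS hZ
  have m2 := h.meet hU hZ
  have m3 := h.meet hU' hZ
  have m4 := h.meet hY hZ
  have m5 := h.meet hT hZ
  have f := h.four hZ z
  have hd' := hd
  unfold D6 at hd'
  have key : (a ∈ Z ∧ c ∈ Z) ∨ (a ∈ Z ∧ d ∈ Z) := by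
    have f1 := f a e x hz
    have f2 := f b e x hz
    have f3 := f c d e hz
    have f4 := f c d x hz
    have f5 := f b c e hz
    have f6 := f b c x hz
    have f7 := f b d e hz
    have f8 := f b d x hz
    grind
  rcases key with ⟨h1, h2⟩ | ⟨h1, h2⟩
  · exact h.caseB' hd (by grind) hS hU hU' hY (h.mem3 hZ h1 h2 hz (by grind) (by grind) (by grind))
  · refine h.caseB' (a := a) (b := b) (c := d) (d := c) (e := e) (x := x) (z := z)
      (by unfold D6; grind) (by grind) hT (by rwa [insert_comm]) (by rwa [insert_comm]) hY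
      (h.mem3 hZ h1 h2 hz (by grind) (by grind) (by grind))

theorem Fam.caseC' (h : Fam F) {a b c d e x : V} (hd : D6 a b c d e x)
    (hS : F {a, b, c}) (hU : F {c, d, e}) (hY : F {a, e, x})
    (hC : ∀ X, F X → a ∉ X → b ∉ X → c ∈ X ∧ d ∈ X ∧ e ∈ X) (hZ0 : F {b, c, x}) : False := by
  obtain ⟨Z, hZ, z, hz, hz'⟩ := h.H3 a b c d e x
  unfold D6 at hd
  have m1 := h.meet hU hZ
  have m2 := h.meet hY hZ
  have m3 := h.meet hZ0 hZ
  have c1 := hC Z hZ
  have f := h.four hZ z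
  by_cases hb : F {b, d, x}
  · obtain ⟨X, hX, h1, h2⟩ := h.H1 b e
    have m4 := h.meet hb hZ
    have key : b ∈ Z ∧ e ∈ Z := by
      have f1 := f c d e hz
      have f2 := f a c d hz
      have f3 := f a b c hz
      have f4 := f a b d hz
      have f5 := f a b e hz
      have f6 := f a x c hz
      have f7 := f a x d hz
      have f8 := f a x e hz
      have f9 := f b x c hz
      have f10 := f b x d hz
      grind
    have hZ' := h.mem3 hZ key.1 key.2 hz (by grind) (by grind) (by grind)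
    have n1 := h.meet hZ' hX
    have n2 := h.meet hU hX
    have n3 := h.meet hZ0 hX
    have n4 := h.meet hb hX
    have c2 := hC X hX
    have g1 := h.four hX a z c d
    have g2 := h.four hX a z c x
    have g3 := h.four hX a z d x
    grind
  · obtain ⟨X3, hX3, h3⟩ := h.H2 a b c e (by grind) (by grind) (by grind) (by grind) (by grind)
      (by grind)
    have hnb : ∀ X, F X → b ∈ X → d ∈ X → x ∈ X → False := fun X hX h1 h2 h3 =>
      hb (h.mem3 hX h1 h2 h3 (by grind) (by grind) (by grind))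
    have key : a ∈ X3 ∧ d ∈ X3 ∧ x ∈ X3 := by
      have n1 := h.meet hU hX3
      have n2 := h.meet hY hX3
      have n3 := h.meet hZ0 hX3
      have c2 := hC X3 hX3
      have := hnb X3 hX3
      grind
    have hA := h.mem3 hX3 key.1 key.2.1 key.2.2 (by grind) (by grind) (by grind)
    obtain ⟨X4, hX4, h1, h2⟩ := h.H1 a c
    have key4 : b ∈ X4 ∧ e ∈ X4 ∧ (d ∈ X4 ∨ x ∈ X4) := by
      have n1 := h.meet hU hX4
      have n2 := h.meet hY hX4
      have n3 := h.meet hS hX4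
      have n4 := h.meet hA hX4
      have := hnb X4 hX4
      grind
    have m4 := h.meet hA hZ
    have keyZ : a ∈ Z ∧ c ∈ Z := by
      have f1 := f c d e hz
      have f3 := f a b c hz
      have f4 := f a b d hz
      have f5 := f a b e hz
      have f6 := f a x c hz
      have f7 := f a x d hz
      have f8 := f a x e hz
      have f9 := f b x c hz
      have f10 := f b x d hz
      have f11 := f b x e hz
      have f12 := f b d e hz
      grind
    have hZ' := h.mem3 hZ keyZ.1 keyZ.2 hz (by grind) (by grind) (by grind)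
    have n1 := h.meet hZ' hX4
    have g1 := h.four hX4 b e d z
    have g2 := h.four hX4 b e x z
    grind

theorem Fam.core (h : Fam F) {a b c d : V} (hab : a ≠ b) (hac : a ≠ c) (had : a ≠ d) (hbc : b ≠ c)
    (hbd : b ≠ d) (hcd : c ≠ d) (hS : F {a, b, c}) (hT : F {a, b, d}) {Y : Finset V} (hY : F Y)
    (ha : a ∈ Y) (hb : b ∉ Y) (hc : c ∉ Y) (hd : d ∉ Y) : False := by
  obtain ⟨U, hU, h1, h2⟩ := h.H1 a b
  have hcU : c ∈ U := by have := h.meet hS hU; grind
  have hdU : d ∈ U := by have := h.meet hT hU; grind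
  obtain ⟨e, he, he1, he2⟩ := h.third hU hcU hdU hcd
  have hU' := h.mem3 hU hcU hdU he hcd he1.symm he2.symm
  have heY : e ∈ Y := by have := h.meet hU' hY; grind
  have hae : a ≠ e := by grind
  obtain ⟨x, hx, hx1, hx2⟩ := h.third hY ha heY hae
  have hY' := h.mem3 hY ha heY hx hae hx1.symm hx2.symm
  have hD : D6 a b c d e x := by unfold D6; grind
  by_cases hB : F {c, d, x}
  · exact h.caseB hD hS hT hU' hB hY'
  have hC : ∀ X, F X → a ∉ X → b ∉ X → c ∈ X ∧ d ∈ X ∧ e ∈ X := by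
    intro X hX h3 h4
    have n1 := h.meet hS hX
    have n2 := h.meet hT hX
    have n3 := h.meet hY' hX
    have : c ∈ X → d ∈ X → x ∈ X → False := fun h5 h6 h7 =>
      hB (h.mem3 hX h5 h6 h7 hcd (by grind) (by grind))
    grind
  obtain ⟨X, hX, h3, h4⟩ := h.H1 a e
  have n1 := h.meet hY' hX
  have n2 := h.meet hU' hX
  have n3 := hC X hX h3
  have hbX : b ∈ X := by grind
  have hxX : x ∈ X := by grind
  by_cases hcX : c ∈ X
  · exact h.caseC' hD hS hU' hY' hC (h.mem3 hX hbX hcX hxX hbc (by grind) (by grind))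
  · have hdX : d ∈ X := by grind
    exact h.caseC' (a := a) (b := b) (c := d) (d := c) (e := e) (x := x)
      (by unfold D6 at hD ⊢; grind) hT (by rwa [insert_comm]) hY'
      (fun X h5 h6 h7 => by have := hC X h5 h6 h7; grind)
      (h.mem3 hX hbX hdX hxX hbd (by grind) (by grind))

/-- two members sharing two points coincide -/
theorem Fam.linear (h : Fam F) {S T : Finset V} (hS : F S) (hT : F T) {a b : V} (hab : a ≠ b)
    (h1 : a ∈ S) (h2 : b ∈ S) (h3 : a ∈ T) (h4 : b ∈ T) : S = T := by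
  obtain ⟨c, hc, hc1, hc2⟩ := h.third hS h1 h2 hab
  obtain ⟨d, hd, hd1, hd2⟩ := h.third hT h3 h4 hab
  have e1 := h.eq3 hS h1 h2 hc hab hc1.symm hc2.symm
  have e2 := h.eq3 hT h3 h4 hd hab hd1.symm hd2.symm
  by_contra hne
  have hcd : c ≠ d := by rintro rfl; exact hne (e1.trans e2.symm)
  rw [e1] at hS
  rw [e2] at hT
  obtain ⟨Y, hY, hY'⟩ := h.H2 a b c d hab hc1.symm hd1.symm hc2.symm hd2.symm hcd
  have n1 := h.meet hS hY
  have n2 := h.meet hT hY
  by_cases ha : a ∈ Y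
  · exact h.core hab hc1.symm hd1.symm hc2.symm hd2.symm hcd hS hT hY ha (by grind) (by grind)
      (by grind)
  · exact h.core hab.symm hc2.symm hd2.symm hc1.symm hd1.symm hcd (by rwa [insert_comm])
      (by rwa [insert_comm]) hY (by grind) ha (by grind) (by grind)

end Pool.Agent.H.D2
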