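import Pool.Agent.H.MP_5980c2_co.A

set_option linter.unusedSectionVars false

namespace Pool.Agent.H.D2
open Finset

variable {V : Type*} [DecidableEq V] [Nonempty V] {F : Finset (Finset V)}

def dg (F : Finset (Finset V)) (p : V) : ℕ := (F.filter (fun L => p ∈ L)).card

def pts (F : Finset (Finset V)) : Finset V := F.biUnion id

theorem mem_pts {p : V} : p ∈ pts F ↔ ∃ L ∈ F, p ∈ L := by simp [pts]

theorem dg_le (h : Fam (· ∈ F)) (p : V) : dg F p ≤ 3 := by
  obtain ⟨X, hX, hp, -⟩ := h.H1 p p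
  rw [← h.h3 X hX]
  have : ∀ L ∈ F, ∃ z, z ∈ L ∧ z ∈ X := fun L hL => h.hI L X hL hX
  choose! f hf using this
  apply card_le_card_of_injOn f
  · intro L hL
    exact (hf L (mem_filter.1 (mem_coe.1 hL)).1).2
  · intro L hL L' hL' e
    have h1 := mem_filter.1 (mem_coe.1 hL)
    have h2 := mem_filter.1 (mem_coe.1 hL')
    refine h.linear h1.1 h2.1 (a := p) (b := f L) ?_ h1.2 (hf L h1.1).1 h2.2 (e ▸ (hf L' h2.1).1)
    rintro rfl
    exact hp (hf L h1.1).2

theorem sum_dg (Q : Finset V) : ∑ p ∈ Q, dg F p = ∑ L ∈ F, (Q ∩ L).card := by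
  simp only [dg, card_filter]
  rw [sum_comm]
  apply sum_congr rfl
  intro L _
  rw [← card_filter, filter_mem_eq_inter]

theorem sum_line (h : Fam (· ∈ F)) {S : Finset V} (hS : S ∈ F) : F.card + 2 ≤ ∑ p ∈ S, dg F p := by
  rw [sum_dg, ← add_sum_erase _ _ hS, inter_self, h.h3 S hS]
  have : ∑ L ∈ F.erase S, 1 ≤ ∑ L ∈ F.erase S, (S ∩ L).card := by
    apply sum_le_sum
    intro L hL
    obtain ⟨z, h1, h2⟩ := h.hI S L hS (mem_of_mem_erase hL)
    exact card_pos.2 ⟨z, mem_inter.2 ⟨h1, h2⟩⟩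
  rw [sum_const, card_erase_of_mem hS, smul_eq_mul, mul_one] at this
  have := card_pos.2 ⟨S, hS⟩
  omega

theorem dg_eq (h : Fam (· ∈ F)) (h7 : 7 ≤ F.card) {p : V} (hp : p ∈ pts F) : dg F p = 3 := by
  obtain ⟨S, hS, hpS⟩ := mem_pts.1 hp
  have h1 := sum_line h hS
  rw [← add_sum_erase _ _ hpS] at h1
  have h2 : ∑ q ∈ S.erase p, dg F q ≤ ∑ q ∈ S.erase p, 3 := sum_le_sum (fun q _ => dg_le h q)
  rw [sum_const, card_erase_of_mem hpS, h.h3 S hS] at h2
  have := dg_le h p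
  simp at h2
  omega

theorem card_F (h : Fam (· ∈ F)) (h7 : 7 ≤ F.card) : F.card = 7 := by
  obtain ⟨S, hS⟩ := card_pos.1 (show 0 < F.card by omega)
  have h1 := sum_line h hS
  have h2 : ∑ q ∈ S, dg F q ≤ ∑ q ∈ S, 3 := sum_le_sum (fun q _ => dg_le h q)
  rw [sum_const, h.h3 S hS] at h2
  simp at h2
  omega

theorem card_pts (h : Fam (· ∈ F)) (h7 : 7 ≤ F.card) : (pts F).card = 7 := by
  have h1 := sum_dg (F := F) (pts F)
  have h2 : ∑ L ∈ F, (pts F ∩ L).card = ∑ L ∈ F, 3 := sum_congr rfl (fun L hL => by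
    rw [inter_eq_right.2 (fun z hz => mem_pts.2 ⟨L, hL, hz⟩), h.h3 L hL])
  rw [sum_congr rfl (fun p hp => dg_eq h h7 hp), h2] at h1
  simp only [sum_const, card_F h h7, smul_eq_mul] at h1
  omega

theorem two_pts (h : Fam (· ∈ F)) (h7 : 7 ≤ F.card) {p q : V} (hp : p ∈ pts F) (hq : q ∈ pts F)
    (hpq : p ≠ q) : ∃ L ∈ F, p ∈ L ∧ q ∈ L := by
  have h1 : ((F.filter (fun L => q ∈ L)).biUnion (fun L => L.erase q)).card = 6 := by
    rw [card_biUnion]
    · rw [sum_congr rfl (g := fun _ => 2) (fun L hL => by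
        rw [card_erase_of_mem (mem_filter.1 hL).2, h.h3 L (mem_filter.1 hL).1])]
      have := dg_eq h h7 hq
      unfold dg at this
      simp [this]
    · intro L hL L' hL' hne
      apply disjoint_left.2
      intro z h1 h2
      have hL := mem_filter.1 (mem_coe.1 hL)
      have hL' := mem_filter.1 (mem_coe.1 hL')
      exact hne (h.linear hL.1 hL'.1 (ne_of_mem_erase h1) (mem_of_mem_erase h1) hL.2
        (mem_of_mem_erase h2) hL'.2)
  have h2 : (F.filter (fun L => q ∈ L)).biUnion (fun L => L.erase q) = (pts F).erase q := by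
    apply eq_of_subset_of_card_le
    · intro z hz
      obtain ⟨L, hL, hz⟩ := mem_biUnion.1 hz
      exact mem_erase.2 ⟨ne_of_mem_erase hz, mem_pts.2 ⟨L, (mem_filter.1 hL).1, mem_of_mem_erase hz⟩⟩
    · rw [h1, card_erase_of_mem hq, card_pts h h7]
  have h3 : p ∈ (pts F).erase q := mem_erase.2 ⟨hpq, hp⟩
  rw [← h2] at h3
  obtain ⟨L, hL, hz⟩ := mem_biUnion.1 h3
  exact ⟨L, (mem_filter.1 hL).1, mem_of_mem_erase hz, (mem_filter.1 hL).2⟩

theorem cover3 (h : Fam (· ∈ F)) (h7 : 7 ≤ F.card) {Q : Finset V} (hQ : Q.card = 3)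
    (hsub : Q ⊆ pts F) (hc : ∀ L ∈ F, ∃ z ∈ Q, z ∈ L) : Q ∈ F := by
  by_contra hn
  obtain ⟨x, y, z, hxy, hxz, hyz, rfl⟩ := card_eq_three.1 hQ
  have hx : x ∈ pts F := hsub (by simp)
  have hy : y ∈ pts F := hsub (by simp)
  have hz : z ∈ pts F := hsub (by simp)
  obtain ⟨L1, hL1, a1, b1⟩ := two_pts h h7 hx hy hxy
  obtain ⟨L2, hL2, a2, b2⟩ := two_pts h h7 hx hz hxz
  obtain ⟨L3, hL3, a3, b3⟩ := two_pts h h7 hy hz hyz
  have hall : ∀ L ∈ F, x ∈ L → y ∈ L → z ∈ L → False := fun L hL h1 h2 h3 =>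
    hn (h.mem3 hL h1 h2 h3 hxy hxz hyz)
  have n12 : L1 ≠ L2 := by rintro rfl; exact hall _ hL1 a1 b1 b2
  have n13 : L1 ≠ L3 := by rintro rfl; exact hall _ hL1 a1 b1 b3
  have n23 : L2 ≠ L3 := by rintro rfl; exact hall _ hL2 a2 a3 b2
  have h1 := sum_dg (F := F) {x, y, z}
  rw [sum_congr rfl (fun p hp => dg_eq h h7 (hsub hp)), sum_const, hQ] at h1
  have h2 : ∑ L ∈ F, (1 + if L ∈ ({L1, L2, L3} : Finset (Finset V)) then 1 else 0) ≤
      ∑ L ∈ F, (({x, y, z} : Finset V) ∩ L).card := by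
    apply sum_le_sum
    intro L hL
    split_ifs with hm
    · apply one_lt_card.2
      simp only [mem_insert, mem_singleton] at hm
      rcases hm with rfl | rfl | rfl
      · exact ⟨x, by simp [a1], y, by simp [b1], hxy⟩
      · exact ⟨x, by simp [a2], z, by simp [b2], hxz⟩
      · exact ⟨y, by simp [a3], z, by simp [b3], hyz⟩
    · obtain ⟨w, h1, h2⟩ := hc L hL
      exact card_pos.2 ⟨w, mem_inter.2 ⟨h1, h2⟩⟩
  rw [sum_add_distrib, ← card_filter, filter_mem_eq_inter, inter_eq_right.2 (by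
    intro L hL
    simp only [mem_insert, mem_singleton] at hL
    rcases hL with rfl | rfl | rfl <;> assumption),
    card_eq_three.2 ⟨L1, L2, L3, n12, n13, n23, rfl⟩, sum_const, card_F h h7] at h2
  simp only [smul_eq_mul] at h1 h2
  omega

theorem cover_ge (h : Fam (· ∈ F)) {Q : Finset V} (hc : ∀ L ∈ F, ∃ z ∈ Q, z ∈ L) : 3 ≤ Q.card := by
  by_contra hlt
  have : ∃ a b : V, Q ⊆ {a, b} := by
    obtain ⟨X, hX, -⟩ := h.H1 (Classical.arbitrary V) (Classical.arbitrary V)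
    · obtain ⟨z, hz, -⟩ := hc X hX
      have h1 : (Q.erase z).card ≤ 1 := by rw [card_erase_of_mem hz]; omega
      obtain ⟨w, hw⟩ := (card_le_one_iff_subset_singleton (s := Q.erase z)).1 h1
      refine ⟨z, w, fun y hy => ?_⟩
      by_cases hyz : y = z
      · simp [hyz]
      · have := hw (mem_erase.2 ⟨hyz, hy⟩)
        simp only [mem_singleton] at this
        simp [this]
  obtain ⟨a, b, hab⟩ := this
  obtain ⟨X, hX, h1, h2⟩ := h.H1 a b
  obtain ⟨z, hz, hz'⟩ := hc X hX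
  have := hab hz
  simp only [mem_insert, mem_singleton] at this
  rcases this with rfl | rfl
  · exact h1 hz'
  · exact h2 hz'

theorem adj_sum (h : Fam (· ∈ F)) (h7 : 7 ≤ F.card) (A : V → V → Prop) [DecidableRel A]
    (hs : ∀ x y, A x y → A y x) (hi : ∀ x, ¬ A x x)
    (hc : ∀ q ∈ pts F, ∀ L ∈ F, q ∉ L → ∃ p ∈ L, A q p) :
    16 ≤ ∑ q ∈ pts F, ((pts F).filter (A q)).card := by
  set P := pts F with hP
  have hP7 : P.card = 7 := card_pts h h7
  set N : V → Finset V := fun q => P.filter (A q) with hN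
  have hqN : ∀ q, q ∉ N q := fun q hq => hi q (mem_filter.1 hq).2
  have hcov : ∀ q ∈ P, ∀ L ∈ F, ∃ z ∈ insert q (N q), z ∈ L := by
    intro q hq L hL
    by_cases hqL : q ∈ L
    · exact ⟨q, mem_insert_self _ _, hqL⟩
    · obtain ⟨p, hp, hp'⟩ := hc q hq L hL hqL
      exact ⟨p, mem_insert_of_mem (mem_filter.2 ⟨mem_pts.2 ⟨L, hL, hp⟩, hp'⟩), hp⟩
  have h2 : ∀ q ∈ P, 2 ≤ (N q).card := by
    intro q hq
    have := cover_ge h (hcov q hq)
    rw [card_insert_of_notMem (hqN q)] at this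
    omega
  have hline : ∀ q ∈ P, (N q).card = 2 → insert q (N q) ∈ F := by
    intro q hq h3
    refine cover3 h h7 (by rw [card_insert_of_notMem (hqN q), h3]) ?_ (hcov q hq)
    exact insert_subset hq (filter_subset _ _)
  by_contra hlt
  have hlt : ∑ q ∈ P, (N q).card ≤ 15 := by simp only [hN]; omega
  have hsum : ∀ Q ⊆ P, ∑ q ∈ Q, (N q).card + 2 * (7 - Q.card) ≤ 15 := by
    intro Q hQ
    have e1 := sum_sdiff (f := fun q => (N q).card) hQ
    have e2 : ∑ q ∈ P \ Q, 2 ≤ ∑ q ∈ P \ Q, (N q).card :=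
      sum_le_sum (fun q hq => h2 q (mem_sdiff.1 hq).1)
    rw [sum_const, card_sdiff_of_subset hQ, hP7, smul_eq_mul] at e2
    omega
  have h3 : ∀ z ∈ P, (N z).card ≤ 3 := by
    intro z hz
    have := hsum {z} (singleton_subset_iff.2 hz)
    simp at this
    omega
  have huniq : ∀ z ∈ P, ∀ z' ∈ P, (N z).card ≠ 2 → (N z').card ≠ 2 → z = z' := by
    intro z hz z' hz' a b
    by_contra hne
    have := hsum {z, z'} (by
      intro w hw
      simp only [mem_insert, mem_singleton] at hw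
      rcases hw with rfl | rfl <;> assumption)
    rw [sum_pair hne, card_pair hne] at this
    have := h2 z hz
    have := h2 z' hz'
    omega
  set D := P.filter (fun q => (N q).card = 2) with hD
  have hD6 : 6 ≤ D.card := by
    have e1 := card_filter_add_card_filter_not (s := P) (fun q => (N q).card = 2)
    have e2 : (P.filter (fun q => ¬ (N q).card = 2)).card ≤ 1 :=
      card_le_one.2 (fun a ha b hb => huniq a (mem_filter.1 ha).1 b (mem_filter.1 hb).1
        (mem_filter.1 ha).2 (mem_filter.1 hb).2)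
    rw [← hD, hP7] at e1
    omega
  have hsame : ∀ q ∈ D, ∀ p ∈ D, p ∈ insert q (N q) → insert p (N p) = insert q (N q) := by
    intro q hq p hp hpq
    have hq := mem_filter.1 hq
    have hp := mem_filter.1 hp
    by_cases e : p = q
    · rw [e]
    · refine h.linear (hline p hp.1 hp.2) (hline q hq.1 hq.2) e (mem_insert_self _ _) ?_ hpq
        (mem_insert_self _ _)
      rcases mem_insert.1 hpq with e' | e'
      · exact absurd e' e
      · exact mem_insert_of_mem (mem_filter.2 ⟨hq.1, hs _ _ (mem_filter.1 e').2⟩)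
  have hclaim : ∀ q ∈ D, ∃ z ∈ P, (N z).card ≠ 2 ∧ A q z := by
    intro q hq
    have hq' := mem_filter.1 hq
    have hl := hline q hq'.1 hq'.2
    obtain ⟨q', hq2, hq3⟩ : ∃ q' ∈ D, q' ∉ insert q (N q) := by
      by_contra hcon
      push Not at hcon
      have := card_le_card (show D ⊆ insert q (N q) from hcon)
      rw [h.h3 _ hl] at this
      omega
    have hq2' := mem_filter.1 hq2
    obtain ⟨p, hp1, hp2⟩ := h.hI _ _ hl (hline q' hq2'.1 hq2'.2)
    have hpP : p ∈ P := mem_pts.2 ⟨_, hl, hp1⟩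
    have hpD : p ∉ D := by
      intro hpD
      apply hq3
      rw [← hsame q hq p hpD hp1, hsame q' hq2 p hpD hp2]
      exact mem_insert_self _ _
    refine ⟨p, hpP, fun e => hpD (mem_filter.2 ⟨hpP, e⟩), ?_⟩
    rcases mem_insert.1 hp1 with e' | e'
    · exact absurd (e' ▸ hq) hpD
    · exact (mem_filter.1 e').2
  obtain ⟨q0, hq0⟩ := card_pos.1 (show 0 < D.card by omega)
  obtain ⟨z, hz, hz2, -⟩ := hclaim q0 hq0
  have : D ⊆ N z := by
    intro q hq
    obtain ⟨z', hz', hz2', hA⟩ := hclaim q hq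
    rw [huniq z hz z' hz' hz2 hz2']
    exact mem_filter.2 ⟨(mem_filter.1 hq).1, hs _ _ hA⟩
  have := card_le_card this
  have := h3 z hz
  omega

end Pool.Agent.H.D2
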