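import Pool.Agent.H.MP_5980c2_co.B

set_option linter.unusedSectionVars false

namespace Pool.Agent.H.D2
open Finset

variable {V : Type*} [DecidableEq V] [Fintype V] (G : SimpleGraph V) [DecidableRel G.Adj]

def Diam2 (G : SimpleGraph V) : Prop := ∀ u v, u = v ∨ G.Adj u v ∨ ∃ w, G.Adj u w ∧ G.Adj w v

theorem moore (hd : Diam2 G) (w : V) :
    Fintype.card V ≤ 1 + G.degree w + ∑ u ∈ G.neighborFinset w, G.degree u := by
  have : (univ : Finset V) ⊆ {w} ∪ G.neighborFinset w ∪
      (G.neighborFinset w).biUnion (fun u => G.neighborFinset u) := by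
    intro v _
    rcases hd w v with h | h | ⟨u, h1, h2⟩
    · simp [h]
    · simp [h]
    · exact mem_union_right _ (mem_biUnion.2 ⟨u, by simpa using h1, by simpa using h2⟩)
  have h1 := card_le_card this
  have h2 := card_union_le ({w} ∪ G.neighborFinset w)
    ((G.neighborFinset w).biUnion (fun u => G.neighborFinset u))
  have h3 := card_union_le {w} (G.neighborFinset w)
  have h4 := card_biUnion_le (s := G.neighborFinset w) (t := fun u => G.neighborFinset u)
  simp only [card_univ, card_singleton, SimpleGraph.card_neighborFinset_eq_degree] at h1 h2 h3 h4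
  omega

theorem sum_deg (Q : Finset V) :
    ∑ p ∈ Q, G.degree p = ∑ v, (G.neighborFinset v ∩ Q).card := by
  have h1 : ∀ p, G.degree p = ∑ v, if G.Adj v p then 1 else 0 := by
    intro p
    rw [← card_filter, ← SimpleGraph.card_neighborFinset_eq_degree]
    congr 1
    ext v; simp [G.adj_comm]
  simp only [h1]
  rw [sum_comm]
  apply sum_congr rfl
  intro v _
  rw [← card_filter]
  congr 1
  ext p; simp [and_comm]

theorem sum_le_k {k : ℕ} (hk : ∀ v, G.degree v ≤ k) (Q : Finset V) :
    ∑ p ∈ Q, G.degree p ≤ Q.card * k := by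
  calc _ ≤ ∑ p ∈ Q, k := sum_le_sum (fun p _ => hk p)
    _ = _ := by simp

theorem many3 {k : ℕ} (hk : ∀ v, G.degree v ≤ k) (hkn : 7 * k ≤ 3 * Fintype.card V)
    (hd : Diam2 G) (hn : 100000000 ≤ Fintype.card V)
    (hM : 100 * ∑ v, G.degree v ≤ 601 * Fintype.card V) :
    97 * Fintype.card V ≤ 100 * (univ.filter (fun w => G.degree w = 3)).card := by
  set n := Fintype.card V with hn'
  set M := ∑ v, G.degree v with hM'
  have hmin : ∀ w, 3 ≤ G.degree w := by
    intro w
    by_contra h
    have h1 := moore G hd w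
    have h2 := sum_le_k G hk (G.neighborFinset w)
    rw [SimpleGraph.card_neighborFinset_eq_degree] at h2
    have h3 : G.degree w * k ≤ 2 * k := Nat.mul_le_mul_right _ (by omega)
    omega
  set C := univ.filter (fun c => n ≤ 29400 * G.degree c) with hC
  have hC1 : C.card ≤ 7 * 29400 := by
    apply Nat.le_of_mul_le_mul_left _ (show 0 < n by omega)
    calc n * C.card = ∑ c ∈ C, n := by simp [mul_comm]
      _ ≤ ∑ c ∈ C, 29400 * G.degree c := sum_le_sum (fun c hc => (mem_filter.1 hc).2)
      _ ≤ ∑ c, 29400 * G.degree c := sum_le_sum_of_subset (subset_univ _)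
      _ = 29400 * M := by rw [mul_sum]
      _ ≤ _ := by omega
  set low := univ.filter (fun w => G.degree w ≤ 2100) with hlow
  have hhigh : 2100 * (univ.filter (fun w => ¬ G.degree w ≤ 2100)).card ≤ M := by
    calc _ = ∑ c ∈ univ.filter (fun w => ¬ G.degree w ≤ 2100), 2100 := by simp [mul_comm]
      _ ≤ ∑ c ∈ univ.filter (fun w => ¬ G.degree w ≤ 2100), G.degree c :=
        sum_le_sum (fun c hc => by have := (mem_filter.1 hc).2; omega)
      _ ≤ M := sum_le_sum_of_subset (subset_univ _)
  have hlh := card_filter_add_card_filter_not (s := univ) (fun w => G.degree w ≤ 2100)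
  rw [← hlow, card_univ, ← hn'] at hlh
  have hl3 : ∀ w ∈ low, 3 ≤ (G.neighborFinset w ∩ C).card := by
    intro w hw
    by_contra h
    have hw := (mem_filter.1 hw).2
    have h1 := moore G hd w
    have h2 := sum_le_k G hk (G.neighborFinset w ∩ C)
    have h3 : (G.neighborFinset w ∩ C).card * k ≤ 2 * k := Nat.mul_le_mul_right _ (by omega)
    have h4 := sum_inter_add_sum_sdiff (G.neighborFinset w) C (fun u => G.degree u)
    have h5 : 29400 * ∑ u ∈ G.neighborFinset w \ C, G.degree u ≤ 2100 * n := by
      rw [mul_sum]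
      calc _ ≤ ∑ u ∈ G.neighborFinset w \ C, n := by
            apply sum_le_sum
            intro u hu
            have := (mem_sdiff.1 hu).2
            simp only [hC, mem_filter, mem_univ, true_and] at this
            omega
        _ = (G.neighborFinset w \ C).card * n := by simp
        _ ≤ 2100 * n := by
            apply Nat.mul_le_mul_right
            refine le_trans (card_le_card sdiff_subset) ?_
            rw [SimpleGraph.card_neighborFinset_eq_degree]; exact hw
    omega
  have h6 : 3 * low.card ≤ ∑ c ∈ C, G.degree c := by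
    rw [sum_deg]
    calc _ = ∑ w ∈ low, 3 := by simp [mul_comm]
      _ ≤ ∑ w ∈ low, (G.neighborFinset w ∩ C).card := sum_le_sum hl3
      _ ≤ _ := sum_le_sum_of_subset (subset_univ _)
  have h7 : 4 * Cᶜ.card ≤ ∑ v ∈ Cᶜ, G.degree v + (univ.filter (fun w => G.degree w = 3)).card := by
    calc _ = ∑ v ∈ Cᶜ, 4 := by simp [mul_comm]
      _ ≤ ∑ v ∈ Cᶜ, (G.degree v + if G.degree v = 3 then 1 else 0) := by
          apply sum_le_sum
          intro v _
          have := hmin v
          split_ifs <;> omega
      _ = ∑ v ∈ Cᶜ, G.degree v + (Cᶜ.filter (fun w => G.degree w = 3)).card := by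
          rw [sum_add_distrib, card_filter]
      _ ≤ _ := Nat.add_le_add_left (card_le_card (filter_subset_filter _ (subset_univ _))) _
  have h8 := sum_add_sum_compl C (fun v => G.degree v)
  have h9 := card_add_card_compl C
  rw [← hn'] at h9
  rw [← hM'] at h8
  omega

theorem lower {k : ℕ} (hk : ∀ v, G.degree v ≤ k) (hkn : 7 * k + 6 ≤ 3 * Fintype.card V)
    (hd : Diam2 G) (hn : 100000000 ≤ Fintype.card V) :
    601 * Fintype.card V < 100 * ∑ v, G.degree v := by
  by_contra hM
  have hm := many3 G hk (by omega) hd hn (by omega)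
  have : Nonempty V := Fintype.card_pos_iff.1 (by omega)
  set n := Fintype.card V with hn'
  set W := univ.filter (fun w => G.degree w = 3) with hW
  set N : V → Finset V := fun v => G.neighborFinset v with hN
  have hN3 : ∀ w ∈ W, (N w).card = 3 := fun w hw => (mem_filter.1 hw).2
  have hbig : ∀ w ∈ W, ∀ u ∈ N w, u ∉ W := by
    intro w hw u hu hu'
    have h1 : n ≤ 1 + G.degree w + ∑ u ∈ N w, G.degree u := moore G hd w
    rw [← add_sum_erase _ _ hu] at h1
    have h2 := sum_le_k G hk ((N w).erase u)
    rw [card_erase_of_mem hu, hN3 w hw] at h2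
    have h3 := (mem_filter.1 hw).2
    have h4 := (mem_filter.1 hu').2
    omega
  have hcov : ∀ v, ∀ w ∈ W, v ∉ N w → ∃ p ∈ N w, G.Adj v p := by
    intro v w hw hv
    rcases hd v w with h | h | ⟨u, h1, h2⟩
    · obtain ⟨p, hp⟩ := card_pos.1 (show 0 < (N w).card by rw [hN3 w hw]; omega)
      exact ⟨p, hp, by rw [h]; simpa [hN] using hp⟩
    · exact absurd (by simpa [hN] using h.symm) hv
    · exact ⟨u, by simpa [hN] using h2.symm, h1⟩
  have K3 : ∀ (Q : Finset V) (j : ℕ), (∀ w ∈ W, j ≤ (N w ∩ Q).card) → j * W.card ≤ Q.card * k := by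
    intro Q j h
    refine le_trans ?_ (sum_le_k G hk Q)
    rw [sum_deg]
    calc _ = ∑ w ∈ W, j := by simp [mul_comm]
      _ ≤ ∑ w ∈ W, (N w ∩ Q).card := sum_le_sum h
      _ ≤ _ := sum_le_sum_of_subset (subset_univ _)
  set F := W.image N with hF
  have hFam : Fam (· ∈ F) := by
    refine ⟨?_, ?_, ?_, ?_, ?_⟩
    · intro X hX
      obtain ⟨w, hw, rfl⟩ := mem_image.1 hX
      exact hN3 w hw
    · intro X Y hX hY
      obtain ⟨w, hw, rfl⟩ := mem_image.1 hX
      obtain ⟨w', hw', rfl⟩ := mem_image.1 hY
      obtain ⟨p, hp, hp'⟩ := hcov w' w hw (fun h => hbig w hw w' h hw')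
      exact ⟨p, hp, by simpa [hN] using hp'⟩
    · intro a b
      by_contra hc
      push Not at hc
      have := K3 {a, b} 1 (fun w hw => card_pos.2 (by
        by_cases ha : a ∈ N w
        · exact ⟨a, by simp [ha]⟩
        · exact ⟨b, by simp [hc _ (mem_image_of_mem _ hw) ha]⟩))
      have h2 : ({a, b} : Finset V).card * k ≤ 2 * k := Nat.mul_le_mul_right _ card_le_two
      omega
    · intro a b c d h1 h2 h3 h4 h5 h6
      by_contra hc
      have := K3 {a, b, c, d} 2 (fun w hw => one_lt_card.2 (by
        by_contra hc'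
        push Not at hc'
        refine hc ⟨N w, mem_image_of_mem _ hw, ?_, ?_, ?_, ?_, ?_, ?_⟩
        · exact fun h => h1 (hc' a (by simp [h.1]) b (by simp [h.2]))
        · exact fun h => h2 (hc' a (by simp [h.1]) c (by simp [h.2]))
        · exact fun h => h3 (hc' a (by simp [h.1]) d (by simp [h.2]))
        · exact fun h => h4 (hc' b (by simp [h.1]) c (by simp [h.2]))
        · exact fun h => h5 (hc' b (by simp [h.1]) d (by simp [h.2]))
        · exact fun h => h6 (hc' c (by simp [h.1]) d (by simp [h.2]))))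
      have h2 : ({a, b, c, d} : Finset V).card * k ≤ 4 * k :=
        Nat.mul_le_mul_right _ card_le_four
      omega
    · intro a b c d e f
      by_contra hc
      push Not at hc
      have := K3 {a, b, c, d, e, f} 3 (fun w hw => by
        rw [inter_eq_left.2, hN3 w hw]
        intro z hz
        have := hc _ (mem_image_of_mem _ hw) z hz
        simp only [mem_insert, mem_singleton]
        tauto)
      have h2 : ({a, b, c, d, e, f} : Finset V).card * k ≤ 6 * k :=
        Nat.mul_le_mul_right _ card_le_six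
      omega
  have h7 : 7 ≤ F.card := by
    have e1 : W.card = ∑ S ∈ F, (W.filter (fun w => N w = S)).card := card_eq_sum_card_image N W
    have e2 : ∀ S ∈ F, W.card + 2 * (W.filter (fun w => N w = S)).card ≤ 3 * k := by
      intro S hS
      have e3 := sum_le_k G hk S
      rw [hFam.h3 S hS, sum_deg] at e3
      refine le_trans ?_ e3
      calc _ = ∑ w ∈ W, (1 + 2 * if N w = S then 1 else 0) := by
            rw [sum_add_distrib, ← mul_sum, ← card_filter]; simp
        _ ≤ ∑ w ∈ W, (N w ∩ S).card := by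
            apply sum_le_sum
            intro w hw
            split_ifs with h
            · rw [h, inter_self, hFam.h3 S hS]
            · obtain ⟨p, h1, h2⟩ := hFam.hI _ _ (mem_image_of_mem _ hw) hS
              exact card_pos.2 ⟨p, mem_inter.2 ⟨h1, h2⟩⟩
        _ ≤ _ := sum_le_sum_of_subset (subset_univ _)
    have e4 := sum_le_sum e2
    rw [sum_add_distrib, ← mul_sum, ← e1, sum_const, sum_const, smul_eq_mul, smul_eq_mul] at e4
    by_contra hlt
    have : F.card ≤ 6 := by omega
    generalize F.card = f at *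
    interval_cases f <;> omega
  have hcov' : ∀ v, ∀ L ∈ F, v ∉ L → ∃ p ∈ L, G.Adj v p := by
    intro v L hL hv
    obtain ⟨w, hw, rfl⟩ := mem_image.1 hL
    exact hcov v w hw hv
  have a1 := adj_sum hFam h7 G.Adj (fun _ _ h => h.symm) (fun x => G.irrefl)
    (fun q _ => hcov' q)
  have a2 := sum_le_k G hk (pts F)
  rw [card_pts hFam h7, sum_deg, ← sum_add_sum_compl (pts F)] at a2
  have a3 : ∑ q ∈ pts F, ((pts F).filter (G.Adj q)).card =
      ∑ q ∈ pts F, (G.neighborFinset q ∩ pts F).card := by
    apply sum_congr rfl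
    intro q _
    congr 1
    ext p; simp [and_comm]
  have a4 : ∑ v ∈ (pts F)ᶜ, 3 ≤ ∑ v ∈ (pts F)ᶜ, (G.neighborFinset v ∩ pts F).card := by
    apply sum_le_sum
    intro v hv
    apply cover_ge hFam
    intro L hL
    obtain ⟨p, h1, h2⟩ := hcov' v L hL (fun h => mem_compl.1 hv (mem_pts.2 ⟨L, hL, h⟩))
    exact ⟨p, mem_inter.2 ⟨by simpa using h2, mem_pts.2 ⟨L, hL, h1⟩⟩, h1⟩
  rw [sum_const, card_compl, card_pts hFam h7, smul_eq_mul, ← hn'] at a4
  omega

end Pool.Agent.H.D2
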