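import Pool.Agent.H.MP_5980c2_co.C

set_option linter.unusedSectionVars false

namespace Pool.Agent.H.D2
open Finset

theorem diam2_iff {V : Type*} (G : SimpleGraph V) : G.ediam ≤ 2 ↔ Diam2 G := by
  rw [SimpleGraph.ediam_le_iff]
  refine forall_congr' (fun u => forall_congr' (fun v => ?_))
  rw [← not_lt, SimpleGraph.two_lt_edist_iff]
  simp only [Set.eq_empty_iff_forall_notMem, SimpleGraph.mem_commonNeighbors, G.adj_comm v]
  constructor
  · intro h
    by_contra hc
    push Not at hc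
    exact h ⟨hc.1, hc.2.1, fun w hw => hc.2.2 w hw.1 hw.2⟩
  · rintro (h | h | ⟨w, h1, h2⟩) ⟨a, b, c⟩
    · exact a h
    · exact b h
    · exact c w ⟨h1, h2⟩

def inc (p i : ℕ) : Prop := p = i ∨ p = (i + 1) % 7 ∨ p = (i + 3) % 7

instance (p i : ℕ) : Decidable (inc p i) := by unfold inc; infer_instance

def HE : Finset (ℕ × ℕ) := {(0, 1), (0, 2), (0, 4), (1, 2), (1, 6), (2, 3), (3, 5), (4, 5), (5, 6)}

def HH (p q : ℕ) : Prop := (p, q) ∈ HE ∨ (q, p) ∈ HE

instance (p q : ℕ) : Decidable (HH p q) := by unfold HH; infer_instance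

def adjN (u v : ℕ) : Prop :=
  (u < 7 ∧ v < 7 ∧ HH u v) ∨ (u < 7 ∧ 7 ≤ v ∧ inc u (v % 7)) ∨ (v < 7 ∧ 7 ≤ u ∧ inc v (u % 7))

instance (p q : ℕ) : Decidable (adjN p q) := by unfold adjN; infer_instance

theorem HH_irr : ∀ p < 7, ¬ HH p p := by decide

def fano (n : ℕ) : SimpleGraph (Fin n) where
  Adj u v := adjN u v
  symm := ⟨fun u v h => by unfold adjN HH at *; tauto⟩
  loopless := ⟨fun u h => by
    rcases h with h | h | h
    · exact HH_irr _ h.1 h.2.2
    · omega
    · omega⟩

instance (n : ℕ) : DecidableRel (fano n).Adj := fun u v => inferInstanceAs (Decidable (adjN u v))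

theorem f1 : ∀ i < 7, ∀ j < 7, ∃ p < 7, inc p i ∧ inc p j := by decide
theorem f2 : ∀ q < 7, ∀ j < 7, inc q j ∨ ∃ p < 7, HH q p ∧ inc p j := by decide
theorem f3 : ∀ p < 7, ∀ q < 7, ∃ j < 7, inc p j ∧ inc q j := by decide
theorem f4 : ∀ p < 7, ((range 7).filter (fun q => HH p q)).card ≤ 3 := by decide
theorem f5 : ∀ p < 7, ((range 7).filter (fun j => inc p j)).card ≤ 3 := by decide
theorem f6 : ∀ j < 7, ((range 7).filter (fun p => inc p j)).card ≤ 3 := by decide

theorem fano_diam {n : ℕ} (hn : 14 ≤ n) : Diam2 (fano n) := by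
  have key : ∀ u v : Fin n, u.val < 7 → 7 ≤ v.val →
      (fano n).Adj u v ∨ ∃ w, (fano n).Adj u w ∧ (fano n).Adj w v := by
    intro u v hu hv
    rcases f2 u hu (v % 7) (Nat.mod_lt _ (by norm_num)) with h | ⟨p, hp, h1, h2⟩
    · exact Or.inl (Or.inr (Or.inl ⟨hu, hv, h⟩))
    · exact Or.inr ⟨⟨p, by omega⟩, Or.inl ⟨hu, hp, h1⟩, Or.inr (Or.inl ⟨hp, hv, h2⟩)⟩
  intro u v
  right
  by_cases hu : u.val < 7 <;> by_cases hv : v.val < 7
  · obtain ⟨j, hj, h1, h2⟩ := f3 u hu v hv
    have e : (7 + j) % 7 = j := by omega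
    exact Or.inr ⟨⟨7 + j, by omega⟩, Or.inr (Or.inl ⟨hu, by simp, by simpa [e] using h1⟩),
      Or.inr (Or.inr ⟨hv, by simp, by simpa [e] using h2⟩)⟩
  · exact key u v hu (by omega)
  · rcases key v u hv (by omega) with h | ⟨w, h1, h2⟩
    · exact Or.inl h.symm
    · exact Or.inr ⟨w, h2.symm, h1.symm⟩
  · obtain ⟨p, hp, h1, h2⟩ := f1 (u % 7) (Nat.mod_lt _ (by norm_num)) (v % 7)
      (Nat.mod_lt _ (by norm_num))
    exact Or.inr ⟨⟨p, by omega⟩, Or.inr (Or.inr ⟨hp, by omega, h1⟩),
      Or.inr (Or.inl ⟨hp, by omega, h2⟩)⟩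

theorem fano_deg_hi {n : ℕ} (v : Fin n) (hv : 7 ≤ v.val) : (fano n).degree v ≤ 3 := by
  refine le_trans ?_ (f6 (v % 7) (Nat.mod_lt _ (by norm_num)))
  rw [← SimpleGraph.card_neighborFinset_eq_degree]
  apply card_le_card_of_injOn (fun u => u.val)
  · intro u hu
    have hu : (fano _).Adj v u := by simpa using hu
    rcases hu with h | h | h
    · omega
    · omega
    · exact mem_coe.2 (mem_filter.2 ⟨mem_range.2 h.1, h.2.2⟩)
  · exact fun a _ b _ h => Fin.ext h

theorem fano_deg_lo {t : ℕ} (ht : 1 ≤ t) (v : Fin (7 * t)) (hv : v.val < 7) :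
    (fano (7 * t)).degree v ≤ 3 * t := by
  have h1 := f4 v hv
  have h2 := f5 v hv
  have h3 : (fano (7 * t)).degree v ≤ ((((range 7).filter (fun q => HH v q)) ×ˢ {0}) ∪
      (((range 7).filter (fun j => inc v j)) ×ˢ Ico 1 t)).card := by
    rw [← SimpleGraph.card_neighborFinset_eq_degree]
    apply card_le_card_of_injOn (fun u => (u.val % 7, u.val / 7))
    · intro u hu
      have hu : (fano _).Adj v u := by simpa using hu
      have := u.2
      rcases hu with h | h | h
      · refine mem_coe.2 (mem_union_left _ (mem_product.2 ⟨?_, ?_⟩))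
        · simp only [Nat.mod_eq_of_lt h.2.1]
          exact mem_filter.2 ⟨mem_range.2 h.2.1, h.2.2⟩
        · simp only [mem_singleton]; omega
      · refine mem_coe.2 (mem_union_right _ (mem_product.2 ⟨?_, ?_⟩))
        · exact mem_filter.2 ⟨mem_range.2 (Nat.mod_lt _ (by norm_num)), h.2.2⟩
        · simp only [mem_Ico]; omega
      · omega
    · intro a _ b _ h
      simp only [Prod.mk.injEq] at h
      apply Fin.ext; omega
  have h4 := h3.trans (card_union_le _ _)
  rw [card_product, card_product, card_singleton, Nat.card_Ico] at h4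
  have h5 := Nat.mul_le_mul_right (t - 1) h2
  omega

theorem fano_deg {t : ℕ} (ht : 1 ≤ t) (v : Fin (7 * t)) : (fano (7 * t)).degree v ≤ 3 * t := by
  by_cases hv : v.val < 7
  · exact fano_deg_lo ht v hv
  · have := fano_deg_hi v (by omega); omega

theorem fano_edges {t : ℕ} (ht : 1 ≤ t) : (fano (7 * t)).edgeFinset.card ≤ 3 * (7 * t) := by
  have h1 := (fano (7 * t)).sum_degrees_eq_twice_card_edges
  have h2 : ∑ v, (fano (7 * t)).degree v ≤
      ∑ v : Fin (7 * t), (3 + 3 * t * if v.val < 7 then 1 else 0) := by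
    apply sum_le_sum
    intro v _
    split_ifs with hv
    · have := fano_deg_lo ht v hv; omega
    · have := fano_deg_hi v (by omega); omega
  rw [sum_add_distrib, ← mul_sum, ← card_filter] at h2
  have h3 : (univ.filter (fun v : Fin (7 * t) => v.val < 7)).card ≤ (range 7).card :=
    card_le_card_of_injOn (fun u => u.val)
      (fun u hu => mem_coe.2 (mem_range.2 (mem_filter.1 (mem_coe.1 hu)).2))
      (fun a _ b _ h => Fin.ext h)
  have h4 := Nat.mul_le_mul_left (3 * t) h3
  simp only [sum_const, card_univ, Fintype.card_fin, smul_eq_mul, card_range] at h2 h4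
  omega

def rook (n : ℕ) : SimpleGraph (Fin n) where
  Adj u v := u ≠ v ∧ (u.val / 4 = v.val / 4 ∨ u.val % 4 = v.val % 4)
  symm := ⟨fun u v h => ⟨h.1.symm, h.2.imp Eq.symm Eq.symm⟩⟩
  loopless := ⟨fun u h => h.1 rfl⟩

instance (n : ℕ) : DecidableRel (rook n).Adj := fun u v =>
  inferInstanceAs (Decidable (u ≠ v ∧ (u.val / 4 = v.val / 4 ∨ u.val % 4 = v.val % 4)))

theorem rook_diam (n : ℕ) : Diam2 (rook n) := by
  have key : ∀ u v : Fin n, u.val / 4 < v.val / 4 → u.val % 4 ≠ v.val % 4 →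
      ∃ w, (rook n).Adj u w ∧ (rook n).Adj w v := by
    intro u v h1 h2
    have := v.2
    refine ⟨⟨4 * (u.val / 4) + v.val % 4, by omega⟩, ⟨fun h => ?_, Or.inl ?_⟩,
      ⟨fun h => ?_, Or.inr ?_⟩⟩
    · have := congrArg Fin.val h; simp only at this; omega
    · simp only; omega
    · have := congrArg Fin.val h; simp only at this; omega
    · simp only; omega
  intro u v
  by_cases h : u = v
  · exact Or.inl h
  right
  by_cases h1 : u.val / 4 = v.val / 4 ∨ u.val % 4 = v.val % 4
  · exact Or.inl ⟨h, h1⟩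
  right
  push Not at h1
  rcases lt_or_gt_of_ne h1.1 with h2 | h2
  · exact key u v h2 h1.2
  · obtain ⟨w, h3, h4⟩ := key v u h2 h1.2.symm
    exact ⟨w, h4.symm, h3.symm⟩

theorem rook_deg {n : ℕ} (v : Fin n) : (rook n).degree v ≤ 4 + (n / 4 + 1) := by
  have h3 : (rook n).degree v ≤ (({v.val / 4} ×ˢ range 4) ∪ (range (n / 4 + 1) ×ˢ {v.val % 4})).card := by
    rw [← SimpleGraph.card_neighborFinset_eq_degree]
    apply card_le_card_of_injOn (fun u => (u.val / 4, u.val % 4))
    · intro u hu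
      have hu : (rook n).Adj v u := by simpa using hu
      have := u.2
      rcases hu.2 with h | h
      · refine mem_coe.2 (mem_union_left _ (mem_product.2 ⟨?_, ?_⟩))
        · simp only [mem_singleton]; omega
        · simp only [mem_range]; omega
      · refine mem_coe.2 (mem_union_right _ (mem_product.2 ⟨?_, ?_⟩))
        · simp only [mem_range]; omega
        · simp only [mem_singleton]; omega
    · intro a _ b _ h
      simp only [Prod.mk.injEq] at h
      apply Fin.ext; omega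
  have h4 := h3.trans (card_union_le _ _)
  simpa using h4

end Pool.Agent.H.D2
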